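import Pool.Agent.Helper22.TB.Goals

set_option autoImplicit false

open Finset Filter Topology
open Pool.Agent.Helper90.Twin (Ps Gz)
open Pool.Agent.Helper22.TB

namespace Pool.Agent.Helper72.TB

theorem three_prod_le {x y z : ℝ} (hx : 0 ≤ x) (hy : 0 ≤ y) (hz : 0 ≤ z) :
    x * y * z ≤ x ^ 3 + y ^ 3 + z ^ 3 := by
  rcases le_total x y with h1 | h1 <;> rcases le_total y z with h2 | h2 <;>
    rcases le_total x z with h3 | h3 <;>
    nlinarith [mul_nonneg hx hy, mul_nonneg hy hz, mul_nonneg hx hz, pow_nonneg hx 3,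
      pow_nonneg hy 3, pow_nonneg hz 3, mul_nonneg (mul_nonneg hx hy) hz,
      mul_nonneg (sq_nonneg (x - y)) (add_nonneg hx hy),
      mul_nonneg (sq_nonneg (y - z)) (add_nonneg hy hz),
      mul_nonneg (sq_nonneg (x - z)) (add_nonneg hx hz),
      mul_nonneg (add_nonneg (add_nonneg hx hy) hz) (add_nonneg (add_nonneg (sq_nonneg (x - y))
        (sq_nonneg (y - z))) (sq_nonneg (x - z)))]

theorem gTAIL : G_TAIL := by
  intro hMP hO hR A ε hε
  obtain ⟨C1, hC1, h1⟩ := hMP.2.1 12 (by norm_num)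
  obtain ⟨C2, hC2, h2⟩ := hO 125 (by norm_num)
  obtain ⟨C3, hC3, h3⟩ := hO 8 (by norm_num)
  obtain ⟨D, hD⟩ : ∃ D : ℝ, D = C1 * (A : ℝ) ^ 12 * (C2 + 2304 * C3) := ⟨_, rfl⟩
  have hD0 : 0 ≤ D := by rw [hD]; positivity
  refine ⟨max 3 (Real.exp (D / ε + 1)), ?_⟩
  intro K hK L hKL hLA N
  have hK3 : (3 : ℝ) ≤ K := (le_max_left _ _).trans hK
  have hK0 : (0 : ℝ) < K := by linarith
  have hlogK : D / ε + 1 ≤ Real.log K := by
    rw [Real.le_log_iff_exp_le hK0]
    exact (le_max_right _ _).trans hK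
  have hDε : 0 ≤ D / ε := by positivity
  have hlog1 : 1 ≤ Real.log K := by linarith
  have hlog0 : 0 < Real.log K := by linarith
  obtain ⟨M, hM⟩ : ∃ M : ℝ, M = K * Real.log K ^ 140 := ⟨_, rfl⟩
  have hM0 : 0 < M := by rw [hM]; positivity
  obtain ⟨r, hr⟩ : ∃ r : ℝ, r = 1 - 1 / K := ⟨_, rfl⟩
  obtain ⟨s, hs⟩ : ∃ s : ℝ, s = 1 - 1 / (3 * K) := ⟨_, rfl⟩
  have hKi : 1 / K ≤ 1 / 3 := one_div_le_one_div_of_le (by norm_num) hK3
  have hKi0 : 0 < 1 / K := by positivity
  have hs' : s = 1 - (1 / K) / 3 := by rw [hs]; field_simp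
  have hr0 : 0 ≤ r := by rw [hr]; linarith
  have hs0 : 1 / 2 ≤ s := by rw [hs']; linarith
  have hs1 : s ≤ 1 := by rw [hs']; linarith
  have hrs : r ≤ s ^ 3 := by
    rw [hr, hs']
    nlinarith [mul_nonneg hKi0.le hKi0.le, mul_nonneg (mul_nonneg hKi0.le hKi0.le) hKi0.le]
  have hL3 : 3 ≤ L := by
    have : (3 : ℝ) ≤ L := hK3.trans hKL
    exact_mod_cast this
  have hlogL : Real.log L ≤ A * Real.log K := by
    have h := Real.log_le_log (by positivity) hLA
    rwa [Real.log_pow] at h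
  have hlogL0 : 0 ≤ Real.log L := Real.log_natCast_nonneg L
  obtain ⟨Pq, hPq⟩ : ∃ Pq : ℝ, Pq = ∏ p ∈ Ps L, (1 + 12 / (p : ℝ)) := ⟨_, rfl⟩
  have hPq0 : 0 ≤ Pq := by
    rw [hPq]
    exact Finset.prod_nonneg fun p _ => by positivity
  have hPq1 : Pq ≤ C1 * ((A : ℝ) * Real.log K) ^ 12 := by
    rw [hPq]
    refine (h1 L hL3).trans ?_
    have e : Real.log L ^ (12 : ℝ) = Real.log L ^ 12 := by
      rw [← Real.rpow_natCast]; norm_num
    rw [e]
    gcongr
  -- pointwise
  have hpt : ∀ g ∈ Icc 1 N, r ^ g *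
      ∑ q ∈ (PP L).divisors.filter (fun q : ℕ => K * Real.log K ^ 140 < (q : ℝ)), |sq q g| ≤
      M⁻¹ * Pq * (r ^ g * 125 ^ g.primeFactors.card +
        (r ^ g * 8 ^ (3 * g - 1).primeFactors.card + r ^ g * 8 ^ (3 * g + 1).primeFactors.card)) := by
    intro g hg
    have hg1 : 1 ≤ g := (mem_Icc.1 hg).1
    have h := hR L g M hM0 hg1
    rw [← hPq] at h
    rw [← hM]
    have h5 := three_prod_le (x := (5 : ℝ) ^ g.primeFactors.card)
      (y := (2 : ℝ) ^ (3 * g - 1).primeFactors.card)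
      (z := (2 : ℝ) ^ (3 * g + 1).primeFactors.card) (by positivity) (by positivity) (by positivity)
    have e1 : ((5 : ℝ) ^ g.primeFactors.card) ^ 3 = 125 ^ g.primeFactors.card := by
      rw [← pow_mul, mul_comm, pow_mul]; norm_num
    have e2 : ∀ m : ℕ, ((2 : ℝ) ^ m) ^ 3 = 8 ^ m := by
      intro m
      rw [← pow_mul, mul_comm, pow_mul]; norm_num
    rw [e1, e2, e2] at h5
    have hrg : 0 ≤ r ^ g := by positivity
    have hMP0 : 0 ≤ M⁻¹ * Pq := by positivity
    calc r ^ g * ∑ q ∈ (PP L).divisors.filter (fun q : ℕ => M < (q : ℝ)), |sq q g|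
        ≤ r ^ g * (M⁻¹ * Pq * 5 ^ g.primeFactors.card *
          2 ^ (3 * g - 1).primeFactors.card * 2 ^ (3 * g + 1).primeFactors.card) :=
          mul_le_mul_of_nonneg_left h hrg
      _ = M⁻¹ * Pq * (r ^ g * (5 ^ g.primeFactors.card *
          2 ^ (3 * g - 1).primeFactors.card * 2 ^ (3 * g + 1).primeFactors.card)) := by ring
      _ ≤ M⁻¹ * Pq * (r ^ g * (125 ^ g.primeFactors.card +
          8 ^ (3 * g - 1).primeFactors.card + 8 ^ (3 * g + 1).primeFactors.card)) := by
          apply mul_le_mul_of_nonneg_left _ hMP0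
          exact mul_le_mul_of_nonneg_left h5 hrg
      _ = _ := by ring
  rw [← hr]
  refine (Finset.sum_le_sum hpt).trans ?_
  rw [← Finset.mul_sum, Finset.sum_add_distrib, Finset.sum_add_distrib]
  have hs8 : ∀ N' : ℕ, ∑ n ∈ Icc 1 N', s ^ n * (8 : ℝ) ^ n.primeFactors.card ≤
      C3 * (3 * K) * (2 * Real.log K) ^ 8 := by
    intro N'
    have h := h3 (3 * K) (by linarith) N'
    rw [← hs] at h
    push_cast at h
    refine h.trans ?_
    have hl : Real.log (3 * K) ≤ 2 * Real.log K := by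
      rw [Real.log_mul (by norm_num) hK0.ne']
      have := Real.log_le_log (by norm_num) hK3
      linarith
    have hl0 : 0 ≤ Real.log (3 * K) := Real.log_nonneg (by linarith)
    gcongr
  have hA : ∑ g ∈ Icc 1 N, r ^ g * (125 : ℝ) ^ g.primeFactors.card ≤ C2 * K * Real.log K ^ 125 := by
    have h := h2 K hK3 N
    rw [← hr] at h
    push_cast at h
    exact h
  have hB : ∑ g ∈ Icc 1 N, r ^ g * (8 : ℝ) ^ (3 * g - 1).primeFactors.card ≤
      C3 * (3 * K) * (2 * Real.log K) ^ 8 := by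
    refine le_trans ?_ (hs8 (3 * N + 1))
    calc ∑ g ∈ Icc 1 N, r ^ g * (8 : ℝ) ^ (3 * g - 1).primeFactors.card
        ≤ ∑ g ∈ Icc 1 N, s ^ (3 * g - 1) * (8 : ℝ) ^ (3 * g - 1).primeFactors.card := by
          refine Finset.sum_le_sum fun g hg => ?_
          have hg1 : 1 ≤ g := (mem_Icc.1 hg).1
          apply mul_le_mul_of_nonneg_right _ (by positivity)
          calc r ^ g ≤ (s ^ 3) ^ g := pow_le_pow_left₀ hr0 hrs g
            _ = s ^ (3 * g) := by rw [← pow_mul]
            _ ≤ s ^ (3 * g - 1) := pow_le_pow_of_le_one (by linarith) hs1 (by omega)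
      _ = ∑ n ∈ (Icc 1 N).image (fun g => 3 * g - 1), s ^ n * (8 : ℝ) ^ n.primeFactors.card := by
          rw [Finset.sum_image]
          intro g hg g' hg' h
          simp only [coe_Icc, Set.mem_Icc] at hg hg' h
          omega
      _ ≤ ∑ n ∈ Icc 1 (3 * N + 1), s ^ n * (8 : ℝ) ^ n.primeFactors.card := by
          apply Finset.sum_le_sum_of_subset_of_nonneg
          · intro n hn
            rw [mem_image] at hn
            obtain ⟨g, hg, rfl⟩ := hn
            rw [mem_Icc] at hg ⊢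
            omega
          · intro n _ _
            have : 0 ≤ s := by linarith
            positivity
  have hC : ∑ g ∈ Icc 1 N, r ^ g * (8 : ℝ) ^ (3 * g + 1).primeFactors.card ≤
      2 * (C3 * (3 * K) * (2 * Real.log K) ^ 8) := by
    refine le_trans ?_ (mul_le_mul_of_nonneg_left (hs8 (3 * N + 1)) (by norm_num))
    calc ∑ g ∈ Icc 1 N, r ^ g * (8 : ℝ) ^ (3 * g + 1).primeFactors.card
        ≤ ∑ g ∈ Icc 1 N, 2 * (s ^ (3 * g + 1) * (8 : ℝ) ^ (3 * g + 1).primeFactors.card) := by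
          refine Finset.sum_le_sum fun g hg => ?_
          rw [← mul_assoc]
          apply mul_le_mul_of_nonneg_right _ (by positivity)
          have hs3 : 0 ≤ s ^ (3 * g) := by
            have : 0 ≤ s := by linarith
            positivity
          calc r ^ g ≤ (s ^ 3) ^ g := pow_le_pow_left₀ hr0 hrs g
            _ = s ^ (3 * g) * 1 := by rw [← pow_mul, mul_one]
            _ ≤ s ^ (3 * g) * (2 * s) := mul_le_mul_of_nonneg_left (by linarith) hs3
            _ = 2 * s ^ (3 * g + 1) := by ring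
      _ = 2 * ∑ n ∈ (Icc 1 N).image (fun g => 3 * g + 1), s ^ n * (8 : ℝ) ^ n.primeFactors.card := by
          rw [← Finset.mul_sum, Finset.sum_image]
          intro g hg g' hg' h
          simp only at h
          omega
      _ ≤ 2 * ∑ n ∈ Icc 1 (3 * N + 1), s ^ n * (8 : ℝ) ^ n.primeFactors.card := by
          apply mul_le_mul_of_nonneg_left _ (by norm_num)
          apply Finset.sum_le_sum_of_subset_of_nonneg
          · intro n hn
            rw [mem_image] at hn
            obtain ⟨g, hg, rfl⟩ := hn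
            rw [mem_Icc] at hg ⊢
            omega
          · intro n _ _
            have : 0 ≤ s := by linarith
            positivity
  have hpow : Real.log K ^ 8 ≤ Real.log K ^ 125 := pow_le_pow_right₀ hlog1 (by norm_num)
  have hsum : C2 * K * Real.log K ^ 125 + (C3 * (3 * K) * (2 * Real.log K) ^ 8 +
      2 * (C3 * (3 * K) * (2 * Real.log K) ^ 8)) ≤
      K * Real.log K ^ 125 * (C2 + 2304 * C3) := by
    have e : C3 * (3 * K) * (2 * Real.log K) ^ 8 + 2 * (C3 * (3 * K) * (2 * Real.log K) ^ 8) =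
        2304 * C3 * K * Real.log K ^ 8 := by ring
    rw [e]
    have : 2304 * C3 * K * Real.log K ^ 8 ≤ 2304 * C3 * K * Real.log K ^ 125 :=
      mul_le_mul_of_nonneg_left hpow (by positivity)
    calc _ ≤ C2 * K * Real.log K ^ 125 + 2304 * C3 * K * Real.log K ^ 125 := by linarith
      _ = _ := by ring
  calc M⁻¹ * Pq * (∑ g ∈ Icc 1 N, r ^ g * (125 : ℝ) ^ g.primeFactors.card +
        (∑ g ∈ Icc 1 N, r ^ g * (8 : ℝ) ^ (3 * g - 1).primeFactors.card +
          ∑ g ∈ Icc 1 N, r ^ g * (8 : ℝ) ^ (3 * g + 1).primeFactors.card))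
      ≤ M⁻¹ * (C1 * ((A : ℝ) * Real.log K) ^ 12) *
        (K * Real.log K ^ 125 * (C2 + 2304 * C3)) := by
        apply mul_le_mul
        · exact mul_le_mul_of_nonneg_left hPq1 (by positivity)
        · linarith
        · positivity
        · positivity
    _ = D * (Real.log K ^ 137 / Real.log K ^ 140) * (K / K) := by
        rw [hM, hD]
        field_simp
    _ = D / Real.log K ^ 3 := by
        rw [div_self hK0.ne', mul_one]
        have : Real.log K ^ 140 = Real.log K ^ 137 * Real.log K ^ 3 := by ring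
        rw [this]
        field_simp
    _ ≤ ε := by
        rw [div_le_iff₀ (by positivity)]
        have h6 : D / ε ≤ Real.log K ^ 3 := by
          calc D / ε ≤ Real.log K := by linarith
            _ ≤ Real.log K ^ 3 := le_self_pow₀ hlog1 (by norm_num)
        rw [div_le_iff₀ hε] at h6
        linarith

end Pool.Agent.Helper72.TB
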